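import Pool.Agent.J4H60.IF.Stm

set_option autoImplicit false
set_option maxRecDepth 20000

namespace Pool.Agent.J4H93.IF

open Finset Pool.Agent.J4H60.IF

/-- the triples avoiding 6 -/
def T : Finset V := (univ.erase (6 : Fin 7)).powersetCard 3

lemma mem_T {X : V} : X ∈ T ↔ (6 : Fin 7) ∉ X ∧ X.card = 3 := by
  unfold T
  rw [mem_powersetCard]
  constructor
  · rintro ⟨h1, h2⟩
    exact ⟨fun h => (mem_erase.1 (h1 h)).1 rfl, h2⟩
  · rintro ⟨h1, h2⟩
    refine ⟨fun x hx => mem_erase.2 ⟨?_, mem_univ _⟩, h2⟩
    rintro rfl
    exact h1 hx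

lemma card_T : T.card = 20 := by
  unfold T
  rw [card_powersetCard, card_erase_of_mem (mem_univ _), card_univ, Fintype.card_fin]
  rfl

lemma mem_U {X : V} : X ∈ U ↔ 4 ≤ X.card := by
  unfold U
  rw [mem_filter]
  exact ⟨fun h => h.2, fun h => ⟨mem_univ _, h⟩⟩

lemma card_U : U.card = 64 := by
  have h1 : U.card + (univ.filter fun X : V => ¬ 4 ≤ X.card).card = 128 := by
    unfold U
    rw [card_filter_add_card_filter_not, card_univ, Fintype.card_finset, Fintype.card_fin]
    rfl
  have h2 : (univ.filter fun X : V => ¬ 4 ≤ X.card).card = U.card := by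
    refine card_bij' (fun X _ => Xᶜ) (fun X _ => Xᶜ) ?_ ?_ ?_ ?_
    · intro X hX
      rw [mem_filter] at hX
      rw [mem_U, card_compl, Fintype.card_fin]
      omega
    · intro X hX
      rw [mem_U] at hX
      rw [mem_filter]
      refine ⟨mem_univ _, ?_⟩
      rw [card_compl, Fintype.card_fin]
      omega
    · intro X _
      exact compl_compl X
    · intro X _
      exact compl_compl X
  omega

lemma card_add {X Y : V} (h : Disjoint X Y) : X.card + Y.card ≤ 7 := by
  rw [← card_union_of_disjoint h]
  exact (card_le_univ _).trans (by rw [Fintype.card_fin])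

theorem t_Y : S_Y := by
  refine ⟨U ∪ T, ?_, ?_⟩
  · rw [card_union_of_disjoint, card_U, card_T]
    rw [Finset.disjoint_left]
    intro X hX hT
    rw [mem_T] at hT
    rw [mem_U] at hX
    omega
  · unfold D
    have hsub : ((U ∪ T) ×ˢ (U ∪ T)).filter (fun p => p.1 ≠ p.2 ∧ Disjoint p.1 p.2) ⊆
        (T.image fun X => (X, Xᶜ)) ∪ (T.image fun X => (Xᶜ, X)) ∪
          (T.image fun X => (X, Xᶜ.erase 6)) := by
      rintro ⟨X, Y⟩ h
      rw [mem_filter, mem_product] at h
      obtain ⟨⟨hX, hY⟩, -, hd⟩ := h
      simp only at hX hY hd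
      have hc := card_add hd
      have hYX : Y ⊆ Xᶜ := fun y hy => by
        rw [mem_compl]
        exact fun hx => (Finset.disjoint_left.1 hd) hx hy
      have hXY : X ⊆ Yᶜ := fun y hy => by
        rw [mem_compl]
        exact fun hx => (Finset.disjoint_left.1 hd) hy hx
      rw [mem_union, mem_union, mem_image, mem_image, mem_image]
      rcases mem_union.1 hX with hX | hX <;> rcases mem_union.1 hY with hY | hY
      · rw [mem_U] at hX hY
        omega
      · left; right
        refine ⟨Y, hY, ?_⟩
        rw [mem_U] at hX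
        rw [mem_T] at hY
        have : X = Yᶜ := eq_of_subset_of_card_le hXY (by
          rw [card_compl, Fintype.card_fin]
          omega)
        rw [this]
      · left; left
        refine ⟨X, hX, ?_⟩
        rw [mem_U] at hY
        rw [mem_T] at hX
        have : Y = Xᶜ := eq_of_subset_of_card_le hYX (by
          rw [card_compl, Fintype.card_fin]
          omega)
        rw [this]
      · right
        refine ⟨X, hX, ?_⟩
        rw [mem_T] at hX hY
        have : Y = Xᶜ.erase 6 := eq_of_subset_of_card_le
          (fun y hy => mem_erase.2 ⟨fun h => hY.1 (h ▸ hy), hYX hy⟩) (by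
          rw [card_erase_of_mem (mem_compl.2 hX.1), card_compl, Fintype.card_fin]
          omega)
        rw [this]
    refine (card_le_card hsub).trans ?_
    refine (card_union_le _ _).trans ?_
    have h1 := card_union_le (T.image fun X => (X, Xᶜ)) (T.image fun X => (Xᶜ, X))
    have h2 : (T.image fun X => (X, Xᶜ)).card ≤ 20 := card_image_le.trans card_T.le
    have h3 : (T.image fun X => (Xᶜ, X)).card ≤ 20 := card_image_le.trans card_T.le
    have h4 : (T.image fun X => (X, Xᶜ.erase 6)).card ≤ 20 := card_image_le.trans card_T.le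
    omega

end Pool.Agent.J4H93.IF
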